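import Pool.Agent.Helper935_AdS.Wrap

namespace Pool.Agent.Results.MP_dfe4d0_gt.FuchsianUnique
open Helper935.AdS

/-- A pair of metrics realised by a Fuchsian slab with strictly convex `C^3` boundary is realised by
no other slab with convex `C^3` boundary, Fuchsian or not. -/
theorem result {Γ : Type*} [Group Γ] {A : Γ →* (V3 ≃ₗ[ℝ] V3)} (hA : IsCocompact A)
    (S₀ S : ConvexSlab A) (h₀ : StrictFuchsian S₀) (hm : SameMetric S.Xm S₀.Xm)
    (hp : SameMetric S.Xp S₀.Xp) : ∃ Φ, Congruent S₀ S Φ :=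
  fuchsian_unique hA S₀ S h₀ hm hp

end Pool.Agent.Results.MP_dfe4d0_gt.FuchsianUnique
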